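import Mathlib
import Pool.Agent.W323.PT.Stm

/-!
# PT-Nest: nested pairs in convex position
-/

set_option autoImplicit false

namespace Pool.Agent.W402.PT

open Pool.Agent.W323.PT

theorem o_rot (a b c : Pt) : o b c a = o a b c := by unfold o; ring

theorem o_swap (a b c : Pt) : o b a c = - o a b c := by unfold o; ring

theorem o_swap' (a b c : Pt) : o a c b = - o a b c := by unfold o; ring

theorem D_rot (t1 t2 t3 t4 t5 t6 : Pt) : D t4 t5 t6 t1 t2 t3 = - D t1 t2 t3 t4 t5 t6 := by
  unfold D o; ring

/-- position in the cyclic order `p_0..p_19, q_19..q_0` -/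
def key (u : Bool × ℕ) : ℕ := if u.1 then 39 - u.2 else u.2

/-- linear order -/
theorem pos_lin (P : Bool → ℕ → Pt) (hP : Hom 20 P (blk true true false false)) (u v w : Bool × ℕ)
    (hu : u.2 < 20) (hv : v.2 < 20) (hw : w.2 < 20) (huv : u.2 ≠ v.2) (huw : u.2 ≠ w.2)
    (hvw : v.2 ≠ w.2) (h1 : key u < key v) (h2 : key v < key w) :
    0 < o (pt P u) (pt P v) (pt P w) := by
  obtain ⟨b1, i⟩ := u
  obtain ⟨b2, j⟩ := v
  obtain ⟨b3, k⟩ := w
  simp only [key, pt] at *
  cases b1 <;> cases b2 <;> cases b3 <;> simp only [Bool.false_eq_true, if_false, if_true] at h1 h2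
  · -- fff
    exact (hP i j k h1 h2 hw false false false).1 rfl
  · -- fft : i < j, k anywhere
    rcases Nat.lt_or_ge k i with h | h
    · have := (hP k i j h h1 hv true false false).1 rfl
      rwa [← o_rot] at this
    · rcases Nat.lt_or_ge k j with h' | h'
      · have := (hP i k j (by omega) h' hv false true false).2 rfl
        rw [o_swap'] at this; linarith
      · exact (hP i j k h1 (by omega) hw false false true).1 rfl
  · omega
  · -- ftt : j > k
    have hkj : k < j := by omega
    rcases Nat.lt_or_ge i k with h | h
    · have := (hP i k j h hkj hv false true true).2 rfl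
      rw [o_swap'] at this; linarith
    · rcases Nat.lt_or_ge i j with h' | h'
      · have := (hP k i j (by omega) h' hv true false true).1 rfl
        rwa [← o_rot] at this
      · have h3 := (hP k j i hkj (by omega) hu true true false).2 rfl
        rw [o_swap] at h3
        have h4 := o_rot (P false i) (P true j) (P true k)
        linarith
  · omega
  · omega
  · omega
  · -- ttt : i > j > k
    have h3 := (hP k j i (by omega) (by omega) hu true true true).2 rfl
    have h4 := o_rot (P true i) (P true j) (P true k)
    have h5 := o_swap (P true k) (P true j) (P true i)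
    linarith

/-- three labels in the cyclic order with distinct indices -/
def good (u v w : Bool × ℕ) : Prop :=
  (u.2 < 20 ∧ v.2 < 20 ∧ w.2 < 20) ∧ (u.2 ≠ v.2 ∧ u.2 ≠ w.2 ∧ v.2 ≠ w.2) ∧
    ((key u < key v ∧ key v < key w) ∨ (key v < key w ∧ key w < key u) ∨ (key w < key u ∧ key u < key v))

instance (u v w : Bool × ℕ) : Decidable (good u v w) := by unfold good; infer_instance

theorem pos_good (P : Bool → ℕ → Pt) (hP : Hom 20 P (blk true true false false)) (u v w : Bool × ℕ)
    (h : good u v w) : 0 < o (pt P u) (pt P v) (pt P w) := by
  obtain ⟨⟨hu, hv, hw⟩, ⟨huv, huw, hvw⟩, h⟩ := h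
  rcases h with h | h | h
  · exact pos_lin P hP u v w hu hv hw huv huw hvw h.1 h.2
  · have := pos_lin P hP v w u hv hw hu hvw huv.symm huw.symm h.1 h.2
    rwa [o_rot] at this
  · have := pos_lin P hP w u v hw hu hv huw.symm hvw.symm huv h.1 h.2
    rwa [← o_rot] at this

/-- labels of the first case -/
def l1 (e : Bool) : Fin 13 → Bool × ℕ :=
  ![(true, 18), (true, 14), (true, 13), (true, 12), (true, 11), (true, 10), (false, 1), (false, 2),
    (false, 3), (false, 4), (false, 5), (false, 9), (e, 19)]

/-- labels of the second case -/
def l2 (e : Bool) : Fin 13 → Bool × ℕ :=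
  ![(false, 1), (false, 5), (false, 6), (false, 7), (false, 8), (false, 9), (true, 18), (true, 17),
    (true, 16), (true, 15), (true, 14), (true, 10), (e, 0)]

theorem good1 : ∀ (e : Bool) (i j k : Fin 13), i < j → j < k → good (l1 e i) (l1 e j) (l1 e k) := by
  decide +kernel

theorem good2 : ∀ (e : Bool) (i j k : Fin 13), i < j → j < k → good (l2 e i) (l2 e j) (l2 e k) := by
  decide +kernel

theorem nest : S_Hex → S_Nest := by
  intro hHex P hP
  by_cases hD : D (P true 18) (P true 14) (P true 10) (P false 1) (P false 5) (P false 9) ≤ 0
  · have hPat := hHex (P true 18) (P true 14) (P true 13) (P true 12) (P true 11) (P true 10)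
      (P false 1) (P false 2) (P false 3) (P false 4) (P false 5) (P false 9) (P false 19) (P true 19)
      (by
        intro L hL i j k hij hjk
        rcases hL with hL | hL
        · have hL' : L = fun i => pt P (l1 false i) := by
            rw [hL]; funext i; fin_cases i <;> rfl
          rw [hL']
          exact pos_good P hP _ _ _ (good1 false i j k hij hjk)
        · have hL' : L = fun i => pt P (l1 true i) := by
            rw [hL]; funext i; fin_cases i <;> rfl
          rw [hL']
          exact pos_good P hP _ _ _ (good1 true i j k hij hjk)) hD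
    refine ⟨![(true, 18), (false, 1), (true, 10), (false, 9), (true, 13), (true, 11), (false, 2), (false, 4)],
      (true, 12), (false, 3), 19, ?_, by norm_num, by norm_num, by norm_num, by norm_num, by norm_num,
      by norm_num, ?_, ?_⟩
    · decide
    · decide
    · exact hPat
  · have hD' : D (P false 1) (P false 5) (P false 9) (P true 18) (P true 14) (P true 10) ≤ 0 := by
      rw [D_rot (P true 18) (P true 14) (P true 10) (P false 1) (P false 5) (P false 9)]
      linarith [not_le.mp hD]
    have hPat := hHex (P false 1) (P false 5) (P false 6) (P false 7) (P false 8) (P false 9)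
      (P true 18) (P true 17) (P true 16) (P true 15) (P true 14) (P true 10) (P false 0) (P true 0)
      (by
        intro L hL i j k hij hjk
        rcases hL with hL | hL
        · have hL' : L = fun i => pt P (l2 false i) := by
            rw [hL]; funext i; fin_cases i <;> rfl
          rw [hL']
          exact pos_good P hP _ _ _ (good2 false i j k hij hjk)
        · have hL' : L = fun i => pt P (l2 true i) := by
            rw [hL]; funext i; fin_cases i <;> rfl
          rw [hL']
          exact pos_good P hP _ _ _ (good2 true i j k hij hjk)) hD'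
    refine ⟨![(false, 1), (true, 18), (false, 9), (true, 10), (false, 6), (false, 8), (true, 17), (true, 15)],
      (false, 7), (true, 16), 0, ?_, by norm_num, by norm_num, by norm_num, by norm_num, by norm_num,
      by norm_num, ?_, ?_⟩
    · decide
    · decide
    · exact hPat

end Pool.Agent.W402.PT
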